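import Pool.Agent.Helper33.HU.Goals

/-!
Packet HU-EE (MP_bb32d1_al, MP_2a8fe7_al): the polarized elementary symmetric relation on the
complement of a set of indices.
-/

set_option autoImplicit false

namespace Pool.Agent.Helper73.HU

open Finset Pool.Agent.Helper33.HU

section

variable {ι D : Type} [DecidableEq ι] [CommRing D] (c y : ι → D)

/-- elementary symmetric polynomials of the `y_i`, `i` in a finite set. -/
def E (m : ℕ) (M : Finset ι) : D := ∑ L ∈ M.powersetCard m, ∏ i ∈ L, y i

theorem E_insert (m : ℕ) {i : ι} {M : Finset ι} (hi : i ∉ M) :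
    E y (m + 1) (insert i M) = E y (m + 1) M + y i * E y m M := by
  unfold E
  rw [powersetCard_succ_insert hi, sum_union, mul_sum]
  · congr 1
    rw [sum_image]
    · refine sum_congr rfl fun L hL => ?_
      rw [prod_insert fun h => hi ((mem_powersetCard.1 hL).1 h)]
    · intro L hL L' hL' h
      have h1 : i ∉ L := fun h => hi ((mem_powersetCard.1 hL).1 h)
      have h2 : i ∉ L' := fun h => hi ((mem_powersetCard.1 hL').1 h)
      rw [← erase_insert h1, ← erase_insert h2, h]
  · rw [disjoint_left]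
    intro L hL hL'
    obtain ⟨L', _, rfl⟩ := mem_image.1 hL'
    exact hi ((mem_powersetCard.1 hL).1 (mem_insert_self i L'))

theorem double (m : ℕ) (N : Finset ι) :
    ∑ L ∈ N.powersetCard (m + 1), (∑ i ∈ L, c i) * ∏ i ∈ L, y i =
      ∑ i ∈ N, c i * y i * E y m (N.erase i) := by
  simp only [sum_mul]
  rw [sum_comm' (s' := fun i => (N.powersetCard (m + 1)).filter fun L => i ∈ L) (t' := N)]
  · refine sum_congr rfl fun i hi => ?_
    unfold E
    rw [mul_sum]
    refine sum_nbij' (fun L => L.erase i) (fun L => insert i L) ?_ ?_ ?_ ?_ ?_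
    · intro L hL
      obtain ⟨h1, h2⟩ := mem_filter.1 hL
      obtain ⟨h3, h4⟩ := mem_powersetCard.1 h1
      refine mem_powersetCard.2 ⟨erase_subset_erase i h3, ?_⟩
      rw [card_erase_of_mem h2, h4, Nat.add_sub_cancel]
    · intro L hL
      obtain ⟨h3, h4⟩ := mem_powersetCard.1 hL
      have h5 : i ∉ L := fun h => notMem_erase i N (h3 h)
      refine mem_filter.2 ⟨mem_powersetCard.2 ⟨?_, ?_⟩, mem_insert_self i L⟩
      · exact insert_subset hi (h3.trans (erase_subset i N))
      · rw [card_insert_of_notMem h5, h4]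
    · intro L hL
      exact insert_erase (mem_filter.1 hL).2
    · intro L hL
      obtain ⟨h3, h4⟩ := mem_powersetCard.1 hL
      exact erase_insert fun h => notMem_erase i N (h3 h)
    · intro L hL
      rw [← mul_prod_erase L y (mem_filter.1 hL).2, mul_assoc]
  · intro L i
    constructor
    · rintro ⟨h1, h2⟩
      exact ⟨mem_filter.2 ⟨h1, h2⟩, (mem_powersetCard.1 h1).1 h2⟩
    · rintro ⟨h1, _⟩
      exact ⟨(mem_filter.1 h1).1, (mem_filter.1 h1).2⟩

theorem zero_sum (N : Finset ι) (h : ∀ s : ℕ, 1 ≤ s → ∑ i ∈ N, c i * y i ^ s = 0) (m : ℕ) :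
    ∀ s : ℕ, 1 ≤ s → ∑ i ∈ N, c i * y i ^ s * E y m (N.erase i) = 0 := by
  induction m with
  | zero =>
    intro s hs
    simpa [E] using h s hs
  | succ m ih =>
    intro s hs
    have e : ∀ i ∈ N, c i * y i ^ s * E y (m + 1) (N.erase i) =
        (c i * y i ^ s) * E y (m + 1) N - c i * y i ^ (s + 1) * E y m (N.erase i) := by
      intro i hi
      have h1 := E_insert y m (notMem_erase i N)
      rw [insert_erase hi] at h1
      rw [h1]
      ring
    rw [sum_congr rfl e, sum_sub_distrib, ← sum_mul, h s hs, ih (s + 1) (by omega), zero_mul,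
      sub_zero]

end

theorem gEE : G_PS → G_EE := by
  intro hPS n D _ x y hI T j hj
  obtain ⟨m, rfl⟩ : ∃ m, j = m + 1 := ⟨j - 1, by omega⟩
  rw [double (fun i => ∏ t ∈ T, (x i - x t)) y m Tᶜ]
  have h : ∀ s : ℕ, 1 ≤ s → ∑ i ∈ Tᶜ, (∏ t ∈ T, (x i - x t)) * y i ^ s = 0 := by
    intro s hs
    rw [← (hPS n D x y hI T).1 s hs]
    refine sum_subset (subset_univ _) fun k _ hk => ?_
    have hk' : k ∈ T := by simpa using hk
    rw [prod_eq_zero hk' (sub_self _), zero_mul]
  have h1 := zero_sum (fun i => ∏ t ∈ T, (x i - x t)) y Tᶜ h m 1 le_rfl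
  simpa only [pow_one] using h1

end Pool.Agent.Helper73.HU
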